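import Pool.Agent.Y450.Lens.Path

/-! The height of the last vertex changes its sign in a bulge. -/

set_option autoImplicit false
open MeasureTheory intervalIntegral Set

namespace Pool.Agent.Y450.Lens

open Pool.Agent.Y450.Stab

variable {T B : ℝ → ℝ} {L : ℝ}

theorem Prim_add {f g : ℝ → ℝ} (hf : Continuous f) (hg : Continuous g) (a b : ℝ) :
    Prim (fun t => f t + g t) b - Prim (fun t => f t + g t) a =
      (Prim f b - Prim f a) + (Prim g b - Prim g a) := by
  have h : Continuous fun t => f t + g t := hf.add hg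
  rw [Prim_sub hf, Prim_sub hg, Prim_sub h]
  exact intervalIntegral.integral_add (hf.intervalIntegrable _ _) (hg.intervalIntegrable _ _)

theorem Prim_mul {f : ℝ → ℝ} (hf : Continuous f) (k a b : ℝ) :
    Prim (fun t => k * f t) b - Prim (fun t => k * f t) a = k * (Prim f b - Prim f a) := by
  have h : Continuous fun t => k * f t := continuous_const.mul hf
  rw [Prim_sub hf, Prim_sub h]
  exact intervalIntegral.integral_const_mul k f

theorem Prim_const (k a b : ℝ) :
    Prim (fun _ => k) b - Prim (fun _ => k) a = k * (b - a) := by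
  rw [Prim_sub continuous_const, intervalIntegral.integral_const, smul_eq_mul]
  ring

/-- a tent -/
noncomputable def Tent (c w x0 t : ℝ) : ℝ := c * max 0 (w - |t - x0|)

theorem Tent.lip {c : ℝ} (hc : 0 ≤ c) (w x0 : ℝ) : Lip c (Tent c w x0) := by
  intro s t
  have h1 : |max 0 (w - |s - x0|) - max 0 (w - |t - x0|)| ≤ |s - t| := by
    refine (abs_max_sub_max_le_max _ _ _ _).trans (max_le (by simp) ?_)
    rw [show w - |s - x0| - (w - |t - x0|) = |t - x0| - |s - x0| by ring]
    refine (abs_abs_sub_abs_le _ _).trans ?_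
    rw [show t - x0 - (s - x0) = -(s - t) by ring, abs_neg]
  unfold Tent
  rw [← mul_sub, abs_mul, abs_of_nonneg hc]
  exact mul_le_mul_of_nonneg_left h1 hc

theorem Tent.nonneg {c : ℝ} (hc : 0 ≤ c) (w x0 t : ℝ) : 0 ≤ Tent c w x0 t :=
  mul_nonneg hc (le_max_left _ _)

theorem Tent.area {c w : ℝ} (hc : 0 ≤ c) (hw : 0 ≤ w) {x0 a b : ℝ} (ha : a ≤ x0 - w)
    (hb : x0 + w ≤ b) : c * w ^ 2 ≤ Prim (Tent c w x0) b - Prim (Tent c w x0) a := by
  have hcont := (Tent.lip hc w x0).cont
  have h1 := le_Prim hcont (C := 0) ha fun t _ => Tent.nonneg hc w x0 t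
  have h2 := le_Prim hcont (C := 0) hb fun t _ => Tent.nonneg hc w x0 t
  have k1 := intervalIntegral.integral_mono_on (μ := volume) (a := x0 - w) (b := x0)
    (f := fun t => 0 + c * (t - (x0 - w))) (g := Tent c w x0) (by linarith)
    (Continuous.intervalIntegrable (by fun_prop) _ _) (hcont.intervalIntegrable _ _)
    fun t ht => by
      unfold Tent
      rw [zero_add]
      refine mul_le_mul_of_nonneg_left (le_max_of_le_right ?_) hc
      rw [abs_of_nonpos (by linarith [ht.2])]
      linarith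
  have k2 := intervalIntegral.integral_mono_on (μ := volume) (a := x0) (b := x0 + w)
    (f := fun t => c * w + -c * (t - x0)) (g := Tent c w x0) (by linarith)
    (Continuous.intervalIntegrable (by fun_prop) _ _) (hcont.intervalIntegrable _ _)
    fun t ht => by
      unfold Tent
      rw [show c * w + -c * (t - x0) = c * (w - (t - x0)) by ring]
      refine mul_le_mul_of_nonneg_left (le_max_of_le_right ?_) hc
      rw [abs_of_nonneg (by linarith [ht.1])]
  rw [Prim_lin, ← Prim_sub hcont] at k1 k2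
  have e1 : 0 * (x0 - (x0 - w)) + c * (x0 - (x0 - w)) ^ 2 / 2 = c * w ^ 2 / 2 := by ring
  have e2 : c * w * (x0 + w - x0) + -c * (x0 + w - x0) ^ 2 / 2 = c * w ^ 2 / 2 := by ring
  rw [e1] at k1
  rw [e2] at k2
  linarith

theorem Lip.add {L1 L2 : ℝ} {f g : ℝ → ℝ} (hf : Lip L1 f) (hg : Lip L2 g) :
    Lip (L1 + L2) (fun t => f t + g t) := by
  intro x y
  have h1 := hf x y
  have h2 := hg x y
  have : f x + g x - (f y + g y) = (f x - f y) + (g x - g y) := by ring
  show |f x + g x - (f y + g y)| ≤ _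
  rw [this, add_mul]
  exact (abs_add_le _ _).trans (add_le_add h1 h2)

theorem Lip.addc {L : ℝ} {f : ℝ → ℝ} (hf : Lip L f) (k : ℝ) : Lip L (fun t => f t + k) := by
  intro x y
  show |f x + k - (f y + k)| ≤ _
  rw [show f x + k - (f y + k) = f x - f y by ring]
  exact hf x y

theorem Lip.smul {L σ : ℝ} {f : ℝ → ℝ} (hf : Lip L f) (hσ : |σ| = 1) :
    Lip L (fun t => σ * f t) := by
  intro x y
  show |σ * f x - σ * f y| ≤ _
  rw [← mul_sub, abs_mul, hσ, one_mul]
  exact hf x y

theorem gap_x (hT : Lip L T) (hB : Lip L B) (L0 : 0 ≤ L) (L1 : L < 1) {x d l : ℝ}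
    (S : ESq T B x d l) : T x - B x ≤ 2 * l := by
  have h1 := S.d_le hT
  have h2 := (abs_le.1 (hB (x + d) x)).2
  rw [show x + d - x = d by ring, S.h2] at h2
  have h3 := mul_le_mul_of_nonneg_left h1 L0
  have l0 := S.l0
  have h4 := mul_le_mul_of_nonneg_right L1.le l0
  have h5 := mul_le_mul_of_nonneg_left h4 L0
  linarith

theorem pot_abs (hT : Lip L T) (hB : Lip L B) (L0 : 0 ≤ L) (L1 : L < 1) {x d l : ℝ}
    (S : ESq T B x d l) : |Pot T B x d l| ≤ 5 / 2 * l ^ 2 := by
  have l0 := S.l0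
  have h1 := S.pot_lower hT hB
  have hh := abs_le.1 (S.h_le hT hB)
  have hd := S.d_le hT
  have k1 := (abs_le.1 (hT.trap (a := x) (b := x + l) (by linarith [S.l0]))).2
  have k2 := (abs_le.1 (hB.trap (a := x + d) (b := x + d + l) (by linarith [S.l0]))).1
  rw [S.h3, show x + l - x = l by ring] at k1
  rw [S.h2, show x + d + l - (x + d) = l by ring] at k2
  have d2 : d ^ 2 ≤ l ^ 2 := by
    rw [← sq_abs d]
    refine pow_le_pow_left₀ (abs_nonneg _) (hd.trans ?_) 2
    have := mul_le_mul_of_nonneg_right L1.le l0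
    linarith
  have l2 := sq_nonneg l
  have Ll2 := mul_le_mul_of_nonneg_right L1.le l2
  have Ll2' := mul_nonneg L0 l2
  have m1 := mul_le_mul_of_nonneg_left hh.1 l0
  have m2 := mul_le_mul_of_nonneg_left hh.2 l0
  rw [abs_le]
  constructor
  · linarith
  · unfold Pot
    linarith

theorem area_sign {σ : ℝ} (hσ : σ = 1 ∨ σ = -1) (hT : Lip L T) (hB : Lip L B) (L0 : 0 ≤ L)
    (L1 : L < 1) {dd ll : ℝ → ℝ} (hS : ∀ x, ESq T B x (dd x) (ll x)) {x1 x2 x0 M η W : ℝ}
    (h10 : x1 ≤ x0) (h02 : x0 ≤ x2) (hW : x2 - x1 ≤ W) (hM : 0 < M) (hMW : 50 * M ≤ 51 * W)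
    (hg : M ≤ T x0 - B x0) (hl1 : 60 * ll x1 ≤ (1 - L) * M) (hl2 : 60 * ll x2 ≤ (1 - L) * M)
    (hη : 0 < η) (hηM : 300 * η * W ≤ (1 - L) * M ^ 2)
    (h : ∀ x ∈ Icc x1 x2, -η ≤ σ * (YY T dd ll x - B (XX dd ll x))) : False := by
  have σ2 : σ ^ 2 = 1 := by rcases hσ with h | h <;> rw [h] <;> norm_num
  have σa : |σ| = 1 := by rcases hσ with h | h <;> rw [h] <;> simp
  have q0 : 0 < 1 - L := by linarith
  have W0 : 0 < W := by linarith
  have cB := hB.cont
  have hgap : ∀ x y, T x - B x - 2 * |x - y| ≤ T y - B y := by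
    intro x y
    have h1 := (abs_le.1 (hT x y)).2
    have h2 := (abs_le.1 (hB x y)).1
    have h3 := mul_le_mul_of_nonneg_right L1.le (abs_nonneg (x - y))
    linarith
  -- bound of η
  have hη2 : η ≤ 34 / 10000 * ((1 - L) * M) := by
    have h1 : (1 - L) * M * M ≤ (1 - L) * M * (51 / 50 * W) :=
      mul_le_mul_of_nonneg_left (by linarith) (mul_pos q0 hM).le
    have h2 : 300 * η * W ≤ (102 / 100 * ((1 - L) * M)) * W := by linarith
    have h3 := le_of_mul_le_mul_right h2 W0
    linarith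
  have qM : (1 - L) * M ≤ M := by
    have := mul_le_mul_of_nonneg_right (by linarith : 1 - L ≤ 1) hM.le
    linarith
  -- data at the ends
  have hend : ∀ x, 60 * ll x ≤ (1 - L) * M → XX dd ll x ≤ x + 2 * ll x ∧ x ≤ XX dd ll x ∧
      |YY T dd ll x - B (XX dd ll x)| ≤ 2 * ll x ∧
      |Pot T B x (dd x) (ll x)| ≤ 5 / 2 * ll x ^ 2 := by
    intro x hx
    have l0 := (hS x).l0
    have hd := abs_le.1 ((hS x).d_le hT)
    have hLl := mul_le_mul_of_nonneg_right L1.le l0
    have hh := (hS x).h_le hT hB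
    refine ⟨by unfold XX; linarith, by unfold XX; linarith, hh.trans (by linarith),
      pot_abs hT hB L0 L1 (hS x)⟩
  obtain ⟨ea1, ea2, ea3, ea4⟩ := hend x1 hl1
  obtain ⟨eb1, eb2, eb3, eb4⟩ := hend x2 hl2
  by_cases hcase : ∃ x ∈ Icc x1 x2, M ≤ 6 * ll x ∧
      σ * (YY T dd ll x - B (XX dd ll x)) ≤ (1 - L) / 4 * ll x
  · obtain ⟨x, hx, hl, hh⟩ := hcase
    have hP := (hS x).pot_lower hT hB
    have l0 : 0 ≤ ll x := (hS x).l0
    have lp : 0 < ll x := by linarith
    have hlow := h x hx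
    have hd := abs_le.1 ((hS x).d_le hT)
    have hLl := mul_le_mul_of_nonneg_right L1.le l0
    have hXx : x ≤ XX dd ll x ∧ XX dd ll x ≤ x + 2 * ll x := by
      unfold XX; constructor <;> linarith
    set l := ll x with hld
    set v := YY T dd ll x - B (XX dd ll x) with hvd
    have e1 : T x + dd x - l - B (x + dd x + l) = v := rfl
    rw [e1] at hP
    have ηq : η ≤ 204 / 10000 * ((1 - L) * l) := by
      have := mul_le_mul_of_nonneg_left hl q0.le
      linarith
    have U0 : 0 < (1 - L) * l ^ 2 := mul_pos q0 (pow_pos lp 2)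
    -- potential at x
    have P1 : 3 / 8 * ((1 - L) * l ^ 2) ≤ Pot T B x (dd x) l := by
      have hv : -((1 - L) / 4 * l) ≤ v := by
        rcases hσ with h | h
        · rw [h, one_mul] at hlow
          have := mul_nonneg q0.le l0
          linarith
        · rw [h] at hh; linarith
      have := mul_le_mul_of_nonneg_left hv l0
      linarith
    have hend2 : ∀ z, 60 * z ≤ (1 - L) * M → 0 ≤ z → 10 * z ≤ (1 - L) * l := by
      intro z hz hz0
      have := mul_le_mul_of_nonneg_left hl q0.le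
      linarith
    have sqb : ∀ z k : ℝ, 0 ≤ z → 0 ≤ k → z ≤ k * ((1 - L) * l) → z ^ 2 ≤
        k ^ 2 * ((1 - L) * ((1 - L) * l ^ 2)) := by
      intro z k hz hk hzk
      have := pow_le_pow_left₀ hz hzk 2
      have e : (k * ((1 - L) * l)) ^ 2 = k ^ 2 * ((1 - L) * ((1 - L) * l ^ 2)) := by ring
      rw [← e]; exact this
    have qU : (1 - L) * ((1 - L) * l ^ 2) ≤ (1 - L) * l ^ 2 := by
      have := mul_le_mul_of_nonneg_right (by linarith : 1 - L ≤ 1) U0.le
      linarith
    have M2 : M ^ 2 ≤ 36 * l ^ 2 := by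
      have := pow_le_pow_left₀ hM.le hl 2
      linarith [show (6 * l) ^ 2 = 36 * l ^ 2 by ring]
    have ηW : η * W ≤ 12 / 100 * ((1 - L) * l ^ 2) := by
      have := mul_le_mul_of_nonneg_left M2 q0.le
      linarith
    have ηl : η * (2 * l) ≤ 408 / 10000 * ((1 - L) * l ^ 2) := by
      have := mul_le_mul_of_nonneg_right ηq (by linarith : 0 ≤ 2 * l)
      have e : 204 / 10000 * ((1 - L) * l) * (2 * l) = 408 / 10000 * ((1 - L) * l ^ 2) := by ring
      linarith
    -- the common estimate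
    have fin : ∀ (z p vz : ℝ), 10 * z ≤ (1 - L) * l → 0 ≤ z → p ≤ 5 / 2 * z ^ 2 → |vz| ≤ 2 * z →
        0 ≤ σ * vz + η → ∀ D, D ≤ W + 2 * l →
        Pot T B x (dd x) l ≤ p + η * D +
          ((σ * v + η) ^ 2 + (σ * vz + η) ^ 2) / (2 * (1 - L)) → False := by
      intro z p vz hz hz0 hp hvz hvz0 D hD hfin
      have b1 := sqb (σ * v + η) (2704 / 10000) (by linarith) (by norm_num) (by linarith)
      have b2 := sqb (σ * vz + η) (2204 / 10000) hvz0 (by norm_num) (by
        have : σ * vz ≤ |vz| := by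
          have := le_abs_self (σ * vz)
          rw [abs_mul, σa, one_mul] at this
          exact this
        linarith)
      have b3 := sqb z (1 / 10) hz0 (by norm_num) (by linarith)
      have b4 : η * D ≤ η * (W + 2 * l) := mul_le_mul_of_nonneg_left hD hη.le
      have b5 : ((σ * v + η) ^ 2 + (σ * vz + η) ^ 2) / (2 * (1 - L)) ≤
          61 / 1000 * ((1 - L) * l ^ 2) := by
        rw [div_le_iff₀ (by positivity)]
        have e : 61 / 1000 * ((1 - L) * l ^ 2) * (2 * (1 - L)) =
          122 / 1000 * ((1 - L) * ((1 - L) * l ^ 2)) := by ring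
        rw [e]
        have := mul_pos q0 U0
        linarith
      linarith
    rcases hσ with h1 | h1
    · subst h1
      have hA := path_area hT hB L0 L1 (Lip.addc hB (-η)) L0 L1 (σ := 1) (Or.inl rfl) hx.2
        (dd := dd) (ll := ll) (fun y _ => hS y) (fun y hy => by
          have := h y ⟨hx.1.trans hy.1, hy.2⟩
          show 0 ≤ 1 * (YY T dd ll y - (B (XX dd ll y) + -η))
          linarith)
      rw [Prim_add cB continuous_const, Prim_const] at hA
      have z0 := (hS x2).l0
      refine fin (ll x2) (Pot T B x2 (dd x2) (ll x2)) (YY T dd ll x2 - B (XX dd ll x2))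
        (hend2 _ hl2 z0) z0 (abs_le.1 eb4).2 eb3 ?_ (XX dd ll x2 - XX dd ll x) ?_ ?_
      · have := h x2 ⟨h10.trans h02, le_rfl⟩
        linarith
      · have := hend2 _ hl2 z0
        have := mul_le_mul_of_nonneg_right (by linarith : 1 - L ≤ 1) l0
        linarith [hx.1]
      · have e2 : YY T dd ll x - (B (XX dd ll x) + -η) = 1 * v + η := by rw [hvd]; ring
        have e3 : YY T dd ll x2 - (B (XX dd ll x2) + -η) =
          1 * (YY T dd ll x2 - B (XX dd ll x2)) + η := by ring
        rw [e2, e3] at hA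
        linarith
    · subst h1
      have hA := path_area hT hB L0 L1 (Lip.addc hB η) L0 L1 (σ := -1) (Or.inr rfl) hx.1
        (dd := dd) (ll := ll) (fun y _ => hS y) (fun y hy => by
          have := h y ⟨hy.1, hy.2.trans hx.2⟩
          show 0 ≤ -1 * (YY T dd ll y - (B (XX dd ll y) + η))
          linarith)
      rw [Prim_add cB continuous_const, Prim_const] at hA
      have z0 := (hS x1).l0
      refine fin (ll x1) (Pot T B x1 (dd x1) (ll x1)) (YY T dd ll x1 - B (XX dd ll x1))
        (hend2 _ hl1 z0) z0 (abs_le.1 ea4).2 ea3 ?_ (XX dd ll x - XX dd ll x1) ?_ ?_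
      · have := h x1 ⟨le_rfl, h10.trans h02⟩
        linarith
      · linarith [hx.2, hXx.2]
      · have e2 : (YY T dd ll x - (B (XX dd ll x) + η)) ^ 2 = (-1 * v + η) ^ 2 := by
          rw [hvd]; ring
        have e3 : (YY T dd ll x1 - (B (XX dd ll x1) + η)) ^ 2 =
          (-1 * (YY T dd ll x1 - B (XX dd ll x1)) + η) ^ 2 := by ring
        rw [e2, e3, add_comm ((-1 * (YY T dd ll x1 - B (XX dd ll x1)) + η) ^ 2)] at hA
        linarith
  · push Not at hcase
    have c0 : 0 ≤ (1 - L) / 4 := by linarith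
    set τ := Tent ((1 - L) / 4) (M / 6) x0 with hτ
    have hτl := Tent.lip c0 (M / 6) x0
    have hτ0 : ∀ t, 0 ≤ τ t := Tent.nonneg c0 (M / 6) x0
    have cT := hτl.cont
    have hA := path_area (Bs := fun t => (B t + -(σ * η)) + σ * τ t) (L' := L + (1 - L) / 4)
      hT hB L0 L1 (Lip.add (Lip.addc hB (-(σ * η))) (Lip.smul hτl σa)) (by linarith) (by linarith)
      hσ (h10.trans h02) (dd := dd) (ll := ll) (fun y _ => hS y) (fun y hy => by
        have h1 := h y hy
        have e : σ * (YY T dd ll y - (B (XX dd ll y) + -(σ * η) + σ * τ (XX dd ll y))) =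
          σ * (YY T dd ll y - B (XX dd ll y)) + σ ^ 2 * η - σ ^ 2 * τ (XX dd ll y) := by ring
        show 0 ≤ σ * (YY T dd ll y - (B (XX dd ll y) + -(σ * η) + σ * τ (XX dd ll y)))
        rw [e, σ2]
        by_cases hXy : |XX dd ll y - x0| < M / 6
        · have g1 := hgap x0 (XX dd ll y)
          rw [abs_sub_comm] at g1
          have g3 : T (XX dd ll y) - B (XX dd ll y) ≤ 4 * ll y := (hS y).gap_le hT hB L0 L1
          have hly : M ≤ 6 * ll y := by linarith
          have h2 := hcase y hy hly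
          have h3 := mul_le_mul_of_nonneg_left hly c0
          have h4 : τ (XX dd ll y) ≤ (1 - L) / 4 * (M / 6) :=
            mul_le_mul_of_nonneg_left
              (max_le (by linarith) (by linarith [abs_nonneg (XX dd ll y - x0)])) c0
          linarith
        · push Not at hXy
          have : τ (XX dd ll y) = 0 := by
            rw [hτ]
            unfold Tent
            rw [max_eq_left (by linarith), mul_zero]
          rw [this]
          linarith)
    rw [Prim_add (by fun_prop) (by fun_prop), Prim_add cB continuous_const, Prim_const,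
      Prim_mul cT] at hA
    have z1 := (hS x1).l0
    have z2 := (hS x2).l0
    have g1 := gap_x hT hB L0 L1 (hS x1)
    have g2 := gap_x hT hB L0 L1 (hS x2)
    have k1 := hgap x0 x1
    have k2 := hgap x0 x2
    rw [abs_of_nonneg (by linarith : 0 ≤ x0 - x1)] at k1
    rw [abs_of_nonpos (by linarith : x0 - x2 ≤ 0)] at k2
    have hTa := Tent.area c0 (by linarith : (0:ℝ) ≤ M / 6) (x0 := x0) (a := XX dd ll x1)
      (b := XX dd ll x2) (by linarith) (by linarith)
    rw [← hτ] at hTa
    -- heights at the ends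
    have hH : ∀ y ∈ Icc x1 x2, 60 * ll y ≤ (1 - L) * M →
        |YY T dd ll y - B (XX dd ll y)| ≤ 2 * ll y → τ (XX dd ll y) = 0 →
        (YY T dd ll y - (B (XX dd ll y) + -(σ * η) + σ * τ (XX dd ll y))) ^ 2 ≤
          135 / 100000 * ((1 - L) * ((1 - L) * M ^ 2)) := by
      intro y hy hly hv hτy
      have h1 := h y hy
      have e : (YY T dd ll y - (B (XX dd ll y) + -(σ * η) + σ * τ (XX dd ll y))) ^ 2 =
        σ ^ 2 * (YY T dd ll y - (B (XX dd ll y) + -(σ * η) + σ * τ (XX dd ll y))) ^ 2 := by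
        rw [σ2, one_mul]
      have e' : σ ^ 2 * (YY T dd ll y - (B (XX dd ll y) + -(σ * η) + σ * τ (XX dd ll y))) ^ 2 =
        (σ * (YY T dd ll y - B (XX dd ll y)) + σ ^ 2 * η - σ ^ 2 * τ (XX dd ll y)) ^ 2 := by ring
      rw [e, e', σ2, hτy]
      have k := le_abs_self (σ * (YY T dd ll y - B (XX dd ll y)))
      rw [abs_mul, σa, one_mul] at k
      have := pow_le_pow_left₀ (n := 2)
        (by linarith : 0 ≤ σ * (YY T dd ll y - B (XX dd ll y)) + 1 * η - 1 * 0)
        (by linarith : σ * (YY T dd ll y - B (XX dd ll y)) + 1 * η - 1 * 0 ≤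
          3674 / 100000 * ((1 - L) * M))
      have e2 : (3674 / 100000 * ((1 - L) * M)) ^ 2 =
        (3674 / 100000) ^ 2 * ((1 - L) * ((1 - L) * M ^ 2)) := by ring
      rw [e2] at this
      have p : 0 ≤ (1 - L) * ((1 - L) * M ^ 2) := by positivity
      linarith
    have tz : ∀ t, M / 6 ≤ |t - x0| → τ t = 0 := by
      intro t ht
      rw [hτ]
      unfold Tent
      rw [max_eq_left (by linarith), mul_zero]
    have t1 := tz (XX dd ll x1) (by rw [abs_sub_comm, abs_of_nonneg (by linarith)]; linarith)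
    have t2 := tz (XX dd ll x2) (by rw [abs_of_nonneg (by linarith)]; linarith)
    have H1 := hH x1 ⟨le_rfl, h10.trans h02⟩ hl1 ea3 t1
    have H2 := hH x2 ⟨h10.trans h02, le_rfl⟩ hl2 eb3 t2
    have hp : 0 < (1 - L) * M ^ 2 := mul_pos q0 (pow_pos hM 2)
    have s4 : ((YY T dd ll x1 - (B (XX dd ll x1) + -(σ * η) + σ * τ (XX dd ll x1))) ^ 2 +
        (YY T dd ll x2 - (B (XX dd ll x2) + -(σ * η) + σ * τ (XX dd ll x2))) ^ 2) /
          (2 * (1 - (L + (1 - L) / 4))) ≤ 18 / 10000 * ((1 - L) * M ^ 2) := by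
      have e : 2 * (1 - (L + (1 - L) / 4)) = 3 / 2 * (1 - L) := by ring
      rw [e, div_le_iff₀ (by positivity)]
      have e2 : 18 / 10000 * ((1 - L) * M ^ 2) * (3 / 2 * (1 - L)) =
        27 / 10000 * ((1 - L) * ((1 - L) * M ^ 2)) := by ring
      rw [e2]
      linarith
    have pz : ∀ z, 60 * z ≤ (1 - L) * M → 0 ≤ z → z ^ 2 ≤ 1 / 3600 * ((1 - L) * M ^ 2) := by
      intro z hz hz0
      have := pow_le_pow_left₀ hz0 (by linarith : z ≤ 1 / 60 * ((1 - L) * M)) 2
      have e : (1 / 60 * ((1 - L) * M)) ^ 2 = 1 / 3600 * ((1 - L) * ((1 - L) * M ^ 2)) := by ring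
      rw [e] at this
      have := mul_le_mul_of_nonneg_right (by linarith : 1 - L ≤ 1) hp.le
      linarith
    have p1 := pz _ hl1 z1
    have p2 := pz _ hl2 z2
    have hPot : σ * (Pot T B x2 (dd x2) (ll x2) - Pot T B x1 (dd x1) (ll x1)) ≤
        5 / 3600 * ((1 - L) * M ^ 2) := by
      have k := le_abs_self (σ * (Pot T B x2 (dd x2) (ll x2) - Pot T B x1 (dd x1) (ll x1)))
      rw [abs_mul, σa, one_mul] at k
      have k' := abs_sub (Pot T B x2 (dd x2) (ll x2)) (Pot T B x1 (dd x1) (ll x1))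
      linarith
    have hdX : η * (XX dd ll x2 - XX dd ll x1) ≤ 1034 / 300000 * ((1 - L) * M ^ 2) := by
      have : η * (XX dd ll x2 - XX dd ll x1) ≤ η * (1034 / 1000 * W) :=
        mul_le_mul_of_nonneg_left (by linarith) hη.le
      linarith
    have eA : σ * (Prim B (XX dd ll x2) - Prim B (XX dd ll x1) +
          -(σ * η) * (XX dd ll x2 - XX dd ll x1) +
          σ * (Prim τ (XX dd ll x2) - Prim τ (XX dd ll x1)) -
        (Prim B (XX dd ll x2) - Prim B (XX dd ll x1))) =
        -(σ ^ 2 * (η * (XX dd ll x2 - XX dd ll x1))) +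
          σ ^ 2 * (Prim τ (XX dd ll x2) - Prim τ (XX dd ll x1)) := by ring
    rw [eA, σ2] at hA
    have eT : (1 - L) / 4 * (M / 6) ^ 2 = 1 / 144 * ((1 - L) * M ^ 2) := by ring
    rw [eT] at hTa
    linarith

end Pool.Agent.Y450.Lens
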