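import Pool.Agent.Y450.Lens.Main

/-! Two coarsely Lipschitz arcs across a strip enclosing a bulge: a large square. -/

set_option autoImplicit false
open Set Topology

namespace Pool.Agent.Y450.Lens

open Pool.Agent.Y450.Stab

/-- the lower envelope of the cones above the points `(X s, Y s)` -/
noncomputable def env (L : ℝ) (X Y : ℝ → ℝ) (x : ℝ) : ℝ :=
  ⨅ s : Icc (0:ℝ) 1, (Y s + L * |x - X s|)

variable {L : ℝ} {X Y : ℝ → ℝ}

theorem env_bdd (L0 : 0 ≤ L) (hY : ContinuousOn Y (Icc 0 1)) (x : ℝ) :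
    BddBelow (range fun s : Icc (0:ℝ) 1 => Y s + L * |x - X s|) := by
  obtain ⟨m, hm⟩ := (isCompact_Icc (a := (0:ℝ)) (b := 1)).bddBelow_image hY
  refine ⟨m, ?_⟩
  rintro _ ⟨s, rfl⟩
  have h1 := hm (mem_image_of_mem Y s.2)
  have h2 := mul_nonneg L0 (abs_nonneg (x - X s))
  simp only
  linarith

theorem env_le (L0 : 0 ≤ L) (hY : ContinuousOn Y (Icc 0 1)) {s : ℝ} (hs : s ∈ Icc (0:ℝ) 1)
    (x : ℝ) : env L X Y x ≤ Y s + L * |x - X s| :=
  ciInf_le (env_bdd L0 hY x) (⟨s, hs⟩ : Icc (0:ℝ) 1)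

theorem le_env {x m : ℝ} (h : ∀ s ∈ Icc (0:ℝ) 1, m ≤ Y s + L * |x - X s|) :
    m ≤ env L X Y x := by
  have : Nonempty (Icc (0:ℝ) 1) := ⟨⟨0, le_rfl, zero_le_one⟩⟩
  exact le_ciInf fun s => h s s.2

theorem env_lip (L0 : 0 ≤ L) (hY : ContinuousOn Y (Icc 0 1)) : Lip L (env L X Y) := by
  have key : ∀ x y, env L X Y x - L * |x - y| ≤ env L X Y y := by
    intro x y
    refine le_env fun s hs => ?_
    have h1 := env_le (X := X) L0 hY hs x
    have h2 : |x - X s| ≤ |x - y| + |y - X s| := abs_sub_le _ _ _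
    have h3 := mul_le_mul_of_nonneg_left h2 L0
    linarith
  intro x y
  have h1 := key x y
  have h2 := key y x
  rw [abs_sub_comm y x] at h2
  rw [abs_le]
  constructor <;> linarith

theorem lip_max {f g : ℝ → ℝ} (hf : Lip L f) (hg : Lip L g) : Lip L (fun x => max (f x) (g x)) :=
  fun x y => (abs_max_sub_max_le_max _ _ _ _).trans (max_le (hf x y) (hg x y))

theorem lip_minus {f : ℝ → ℝ} (hf : Lip L f) : Lip L (fun x => -f x) := by
  intro x y
  show |-f x - -f y| ≤ _
  rw [show -f x - -f y = -(f x - f y) by ring, abs_neg]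
  exact hf x y

theorem clamp_lip {f : ℝ → ℝ} (L0 : 0 ≤ L) (hf : Lip L f) (a b : ℝ) :
    Lip L (fun x => f (max a (min x b))) := by
  intro x y
  refine (hf _ _).trans (mul_le_mul_of_nonneg_left ?_ L0)
  have h1 := abs_max_sub_max_le_max a (min x b) a (min y b)
  have h2 := abs_min_sub_min_le_max x b y b
  rw [sub_self, abs_zero, max_eq_right (abs_nonneg (min x b - min y b))] at h1
  rw [sub_self, abs_zero, max_eq_left (abs_nonneg (x - y))] at h2
  exact h1.trans h2

/-- Two coarsely `L`-Lipschitz arcs across a strip, with small end gaps and a bulge. -/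
theorem coarse_lens {α β : ℝ → ℂ} (hα : ContinuousOn α (Icc 0 1)) (hβ : ContinuousOn β (Icc 0 1))
    {ε M : ℝ} (L0 : 0 ≤ L) (L1 : L < 1) (hε : 0 ≤ ε) (hM : 0 < M)
    (r0 : (α 0).re = (β 0).re) (r1 : (α 1).re = (β 1).re) (hab : (α 0).re < (α 1).re)
    (h1 : ∀ s ∈ Icc (0:ℝ) 1, ∀ t ∈ Icc (0:ℝ) 1,
      |(α s).im - (α t).im| ≤ L * |(α s).re - (α t).re| + ε)
    (h2 : ∀ s ∈ Icc (0:ℝ) 1, ∀ t ∈ Icc (0:ℝ) 1,
      |(β s).im - (β t).im| ≤ L * |(β s).re - (β t).re| + ε)
    (h3 : ∀ s ∈ Icc (0:ℝ) 1, ∀ t ∈ Icc (0:ℝ) 1,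
      (β t).im ≤ (α s).im + L * |(α s).re - (β t).re| + ε)
    (g0 : 100 * ((α 0).im - (β 0).im) ≤ (1 - L) ^ 2 * M)
    (g1 : 100 * ((α 1).im - (β 1).im) ≤ (1 - L) ^ 2 * M)
    (hx : ∃ s ∈ Icc (0:ℝ) 1, ∃ t ∈ Icc (0:ℝ) 1, (α s).re = (β t).re ∧ (α 0).re ≤ (α s).re ∧
      (α s).re ≤ (α 1).re ∧ M + 2 * ε ≤ (α s).im - (β t).im)
    (e1 : 3000 * ε * ((α 1).re - (α 0).re) ≤ (1 - L) ^ 2 * M ^ 2)
    (e2 : 3000 * ε ≤ (1 - L) ^ 3 * M) :
    ∃ s ∈ Icc (0:ℝ) 1, ∃ t ∈ Icc (0:ℝ) 1, ∃ s' ∈ Icc (0:ℝ) 1, ∃ t' ∈ Icc (0:ℝ) 1, ∃ w : ℂ,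
      (1 - L) * M / 64 ≤ w.re ∧
      α s' = α s + w ∧ β t = α s - Complex.I * w ∧ β t' = α s + w - Complex.I * w := by
  set a : ℝ := (α 0).re with ha
  set b : ℝ := (α 1).re with hb
  set X : ℝ → ℝ := fun t => (α t).re with hX
  set Y : ℝ → ℝ := fun t => (α t).im with hY
  set X' : ℝ → ℝ := fun t => (β t).re with hX'
  set Y' : ℝ → ℝ := fun t => -(β t).im with hY'
  have him : ContinuousOn Y (Icc 0 1) := Complex.continuous_im.comp_continuousOn hα
  have him' : ContinuousOn Y' (Icc 0 1) := (Complex.continuous_im.comp_continuousOn hβ).neg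
  have i0 : (0:ℝ) ∈ Icc (0:ℝ) 1 := ⟨le_rfl, zero_le_one⟩
  have i1 : (1:ℝ) ∈ Icc (0:ℝ) 1 := ⟨zero_le_one, le_rfl⟩
  have hw : 0 < b - a := by linarith
  have q0 : 0 < 1 - L := by linarith
  have q2 : 0 < (1 - L) ^ 2 := pow_pos q0 2
  have q3 : 0 < (1 - L) ^ 3 := pow_pos q0 3
  set u1 : ℝ := (1 - L) ^ 2 * M ^ 2 / (3000 * (b - a)) with hu1
  set u2 : ℝ := (1 - L) ^ 3 * M / 3000 with hu2
  have p1 : 0 < u1 := by rw [hu1]; positivity
  have p2 : 0 < u2 := by rw [hu2]; positivity
  set e : ℝ := min u1 u2 with he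
  have e0 : 0 < e := lt_min p1 p2
  have ee1 : 3000 * e * (b - a) ≤ (1 - L) ^ 2 * M ^ 2 := by
    have : 3000 * u1 * (b - a) = (1 - L) ^ 2 * M ^ 2 := by rw [hu1]; field_simp
    have h := mul_le_mul_of_nonneg_right (min_le_left u1 u2) hw.le
    rw [← he] at h
    nlinarith
  have ee2 : 3000 * e ≤ (1 - L) ^ 3 * M := by
    have := min_le_right u1 u2
    rw [← he] at this
    rw [hu2] at this
    linarith
  have εe : ε ≤ e := by
    refine le_min ?_ ?_
    · rw [hu1, le_div_iff₀ (by positivity)]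
      linarith
    · rw [hu2]
      linarith
  set T0 : ℝ → ℝ := env L X Y with hT0
  set B0 : ℝ → ℝ := fun x => -env L X' Y' x with hB0
  have lT0 : Lip L T0 := env_lip L0 him
  have lB0 : Lip L B0 := lip_minus (env_lip L0 him')
  have hBT : ∀ x, B0 x ≤ T0 x + ε := by
    intro x
    have : -T0 x - ε ≤ env L X' Y' x := by
      refine le_env fun t ht => ?_
      have : -(Y' t + L * |x - X' t|) - ε ≤ T0 x := by
        refine le_env fun s hs => ?_
        have k1 := h3 s hs t ht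
        have k2 : |X s - X' t| ≤ |x - X s| + |x - X' t| := by
          have := abs_sub_le (X s) x (X' t)
          rwa [abs_sub_comm (X s) x] at this
        have k3 := mul_le_mul_of_nonneg_left k2 L0
        simp only [hX, hY, hY', hX'] at k3 ⊢
        linarith
      linarith
    simp only [hB0]
    linarith
  have top1 : ∀ s ∈ Icc (0:ℝ) 1, T0 (α s).re ≤ (α s).im := by
    intro s hs
    have := env_le (X := X) L0 him hs (α s).re
    simp only [hX, sub_self, abs_zero, mul_zero, add_zero] at this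
    exact this
  have top2 : ∀ s ∈ Icc (0:ℝ) 1, (α s).im - ε ≤ T0 (α s).re := by
    intro s hs
    refine le_env fun t ht => ?_
    have := (abs_le.1 (h1 s hs t ht)).2
    simp only [hX, hY]
    linarith
  have bot1 : ∀ t ∈ Icc (0:ℝ) 1, (β t).im ≤ B0 (β t).re := by
    intro t ht
    have := env_le (X := X') L0 him' ht (β t).re
    simp only [hX', sub_self, abs_zero, mul_zero, add_zero] at this
    simp only [hB0]
    simp only [hY'] at this
    linarith
  have bot2 : ∀ t ∈ Icc (0:ℝ) 1, B0 (β t).re ≤ (β t).im + ε := by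
    intro t ht
    have : -(β t).im - ε ≤ env L X' Y' (β t).re := by
      refine le_env fun s hs => ?_
      have := (abs_le.1 (h2 t ht s hs)).1
      simp only [hX', hY']
      linarith
    simp only [hB0]
    linarith
  have lT1 : Lip L (fun x => max (T0 x) (B0 x)) := lip_max lT0 lB0
  have kin : ∀ x, a ≤ x → x ≤ b → max a (min x b) = x := fun x h h' => by
    rw [min_eq_left h', max_eq_right h]
  have kl : ∀ x, x ≤ a → max a (min x b) = a := fun x h => by
    rw [min_eq_left (h.trans hab.le), max_eq_left h]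
  have kr : ∀ x, b ≤ x → max a (min x b) = b := fun x h => by
    rw [min_eq_right h, max_eq_right hab.le]
  obtain ⟨s, hs, t, ht, est, x1, x2, hgap⟩ := hx
  have hout0 : T0 a - B0 a ≤ (α 0).im - (β 0).im := by
    have k1 := top1 0 i0
    have k2 := bot1 0 i0
    rw [← r0] at k2
    linarith
  have hout1 : T0 b - B0 b ≤ (α 1).im - (β 1).im := by
    have k1 := top1 1 i1
    have k2 := bot1 1 i1
    rw [← r1] at k2
    linarith
  refine main_fun (T := fun x => (fun x => max (T0 x) (B0 x)) (max a (min x b)))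
    (B := fun x => B0 (max a (min x b))) hα hβ (clamp_lip L0 lT1 a b) (clamp_lip L0 lB0 a b)
    L0 L1 (fun x => le_max_right _ _) (a := a) (b := b) (e := e)
    (G := max 0 (max ((α 0).im - (β 0).im) ((α 1).im - (β 1).im))) (M := M) (x0 := (α s).re)
    e0 hM ⟨x1, x2⟩ ?_ ?_ ?_ ee1 ee2 le_rfl le_rfl r0.ge r1.le ?_ ?_
  · simp only [kin _ x1 x2]
    have k1 := top2 s hs
    have k2 := bot2 t ht
    rw [← est] at k2
    have k3 := le_max_left (T0 (α s).re) (B0 (α s).re)
    linarith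
  · rintro x (hx | hx)
    · simp only [kl x hx]
      rcases le_total (T0 a) (B0 a) with h | h
      · rw [max_eq_right h, sub_self]
        exact le_max_left _ _
      · rw [max_eq_left h]
        exact hout0.trans ((le_max_left _ _).trans (le_max_right _ _))
    · simp only [kr x hx]
      rcases le_total (T0 b) (B0 b) with h | h
      · rw [max_eq_right h, sub_self]
        exact le_max_left _ _
      · rw [max_eq_left h]
        exact hout1.trans ((le_max_right _ _).trans (le_max_right _ _))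
  · have : 0 ≤ (1 - L) ^ 2 * M := by positivity
    rcases le_total 0 (max ((α 0).im - (β 0).im) ((α 1).im - (β 1).im)) with h | h
    · rw [max_eq_right h]
      rcases le_total ((α 0).im - (β 0).im) ((α 1).im - (β 1).im) with h' | h'
      · rw [max_eq_right h']; exact g1
      · rw [max_eq_left h']; exact g0
    · rw [max_eq_left h]
      linarith
  · intro s hs x1 x2
    simp only [kin _ x1 x2]
    have k1 := top1 s hs
    have k2 := top2 s hs
    have k3 := hBT (α s).re
    rw [abs_le]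
    constructor
    · have : max (T0 (α s).re) (B0 (α s).re) ≤ (α s).im + ε := max_le (by linarith) (by linarith)
      linarith
    · have := le_max_left (T0 (α s).re) (B0 (α s).re)
      linarith
  · intro t ht x1 x2
    simp only [kin _ x1 x2]
    have k1 := bot1 t ht
    have k2 := bot2 t ht
    rw [abs_le]
    constructor <;> linarith

end Pool.Agent.Y450.Lens
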