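import Pool.Agent.Y450.Stab.Exact

/-! The sum of the areas under a path that never moves to the left on the same level, with the
sharp constant. -/

set_option autoImplicit false
open MeasureTheory intervalIntegral Set

namespace Pool.Agent.Y450.Lens

open Pool.Agent.Y450.Stab

variable {C : ℝ} {X H : ℕ → ℝ}

theorem layer (hC : 0 ≤ C) {n : ℕ} (h0 : ∀ k ≤ n, 0 ≤ H k)
    (hc : ∀ j k, j ≤ k → k ≤ n → X j - C * |H k - H j| ≤ X k) :
    -(C / 2) * (H 0 ^ 2 + H n ^ 2) - C / 2 * ∑ k ∈ Finset.range n, (H (k + 1) - H k) ^ 2 ≤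
      Sm X H n := by
  have key : ∀ k ≤ n, X k * H k - Prim (Lay C X H k) (H k) - C / 2 * H 0 ^ 2 -
      C / 2 * ∑ i ∈ Finset.range k, (H (i + 1) - H i) ^ 2 ≤ Sm X H k := by
    intro k
    induction k with
    | zero =>
      intro _
      have hH := h0 0 (by omega)
      have h := (abs_le.1 ((Lay.lip (X := X) (H := H) hC 0).right hH)).1
      have hs := Lay.self (C := C) (X := X) (H := H) 0 (H 0)
      rw [sub_self, abs_zero, mul_zero, sub_zero] at hs
      have e0 : Prim (Lay C X H 0) 0 = 0 := by simp [Prim]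
      have hm := mul_le_mul_of_nonneg_left hs hH
      rw [e0] at h
      simp only [Sm, Finset.range_zero, Finset.sum_empty, mul_zero, sub_zero] at h ⊢
      linarith
    | succ k ih =>
      intro hk
      have ih := ih (by omega)
      have hS : Sm X H (k + 1) = Sm X H k + (H k + H (k + 1)) / 2 * (X (k + 1) - X k) := by
        unfold Sm; rw [Finset.sum_range_succ]
      rw [hS, Finset.sum_range_succ]
      have c0 := (Lay.lip (X := X) (H := H) hC k).cont
      have c1 := (Lay.lip (X := X) (H := H) hC (k + 1)).cont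
      have e0 : ∀ j, Prim (Lay C X H j) 0 = 0 := fun j => by simp [Prim]
      have hk0 := h0 k (by omega)
      have hk1 := h0 (k + 1) hk
      suffices hs : (X k + X (k + 1)) / 2 * (H (k + 1) - H k) - C / 2 * (H (k + 1) - H k) ^ 2 ≤
          Prim (Lay C X H (k + 1)) (H (k + 1)) - Prim (Lay C X H k) (H k) by
        linarith
      rcases le_total (H k) (H (k + 1)) with hu | hd
      · have m1 := Prim_mono c0 c1 hk0 fun t _ => Lay.mono k t
        rw [e0, e0] at m1
        have m2 := le_Prim c1 (C := (X k + X (k + 1)) / 2 - C / 2 * (H (k + 1) - H k)) hu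
          fun t ht => by
            have s1 := (Lay.self (C := C) (X := X) (H := H) k t).trans (Lay.mono k t)
            have s2 := Lay.self (C := C) (X := X) (H := H) (k + 1) t
            rw [abs_of_nonneg (by linarith [ht.1] : 0 ≤ t - H k)] at s1
            rw [abs_of_nonpos (by linarith [ht.2] : t - H (k + 1) ≤ 0)] at s2
            linarith
        linarith
      · have m1 := Prim_mono c0 c1 hk1 fun t _ => Lay.mono k t
        rw [e0, e0] at m1
        have m2 := Prim_le c0 (C := (X k + X (k + 1)) / 2 + C / 2 * (H k - H (k + 1))) hd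
          fun t ht => by
            have s1 := Lay.le hc k k le_rfl (by omega)
            have s2 := Lay.le hc k (k + 1) (by omega) hk
            have l1 := (abs_le.1 (Lay.lip (X := X) (H := H) hC k t (H k))).2
            have l2 := (abs_le.1 (Lay.lip (X := X) (H := H) hC k t (H (k + 1)))).2
            rw [abs_of_nonpos (by linarith [ht.2] : t - H k ≤ 0)] at l1
            rw [abs_of_nonneg (by linarith [ht.1] : 0 ≤ t - H (k + 1))] at l2
            linarith
        linarith
  have h := key n le_rfl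
  have hn := h0 n le_rfl
  have m := (abs_le.1 ((Lay.lip (X := X) (H := H) hC n).right hn)).2
  have hm := mul_le_mul_of_nonneg_left (Lay.le hc n n le_rfl le_rfl) hn
  have e0 : Prim (Lay C X H n) 0 = 0 := by simp [Prim]
  rw [e0] at m
  simp only [sub_zero] at m
  linarith

variable {T B Bs : ℝ → ℝ} {L L' : ℝ}

/-- two-sided step of the potential -/
theorem pot_step (hT : Lip L T) (hB : Lip L B) (L1 : L < 1) {x d l r d' l' : ℝ}
    (S : ESq T B x d l) (S' : ESq T B (x + r) d' l') :
    |(Pot T B (x + r) d' l' - Pot T B x d l) -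
      ((T x + d - l + (T (x + r) + d' - l')) / 2 * (x + r + d' + l' - (x + d + l)) -
        (Prim B (x + r + d' + l') - Prim B (x + d + l)))| ≤
      (r ^ 2 + (r + (d' - d)) ^ 2 + (r + (l' - l)) ^ 2) / 4 := by
  have k1 := abs_le.1 (hT.trap' x (x + r))
  have k2 := abs_le.1 (hB.trap' (x + d) (x + r + d'))
  have k3 := abs_le.1 (hT.trap' (x + l) (x + r + l'))
  rw [S'.h3, S.h3] at k3
  rw [S'.h2, S.h2] at k2
  rw [show x + r - x = r by ring] at k1
  rw [show x + r + d' - (x + d) = r + (d' - d) by ring] at k2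
  rw [show x + r + l' - (x + l) = r + (l' - l) by ring] at k3
  have m1 := mul_le_mul_of_nonneg_right L1.le (sq_nonneg r)
  have m2 := mul_le_mul_of_nonneg_right L1.le (sq_nonneg (r + (d' - d)))
  have m3 := mul_le_mul_of_nonneg_right L1.le (sq_nonneg (r + (l' - l)))
  have id1 : (d' ^ 2 - l' ^ 2) / 2 - (d ^ 2 - l ^ 2) / 2 =
      r * (T x + T (x + r)) / 2 - (r + (d' - d)) * ((T x - l) + (T (x + r) - l')) / 2 +
      (T x + d - l + (T (x + r) + d' - l')) / 2 * (x + r + d' + l' - (x + d + l)) -
      (r + (l' - l)) * ((T x + d) + (T (x + r) + d')) / 2 := by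
    ring
  unfold Pot
  rw [abs_le]
  constructor <;> linarith [k1.1, k1.2, k2.1, k2.2, k3.1, k3.2]

/-- one step, with a comparison function -/
theorem step_cmp (hT : Lip L T) (hB : Lip L B) (L1 : L < 1) (hBs : Lip L' Bs) (L1' : L' < 1)
    {x d l r d' l' : ℝ} (S : ESq T B x d l) (S' : ESq T B (x + r) d' l') :
    |(Pot T B (x + r) d' l' - Pot T B x d l) -
      (((T x + d - l - Bs (x + d + l)) + (T (x + r) + d' - l' - Bs (x + r + d' + l'))) / 2 *
        ((x + r + d' + l') - (x + d + l)) +
      (Prim Bs (x + r + d' + l') - Prim Bs (x + d + l)) -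
      (Prim B (x + r + d' + l') - Prim B (x + d + l)))| ≤
      (r ^ 2 + (r + (d' - d)) ^ 2 + (r + (l' - l)) ^ 2 + (r + (d' - d) + (l' - l)) ^ 2) / 4 := by
  have h := abs_le.1 (pot_step hT hB L1 S S')
  have k := abs_le.1 (hBs.trap' (x + d + l) (x + r + d' + l'))
  have m := mul_le_mul_of_nonneg_right L1'.le (sq_nonneg (x + r + d' + l' - (x + d + l)))
  have e : (x + r + d' + l' - (x + d + l)) ^ 2 = (r + (d' - d) + (l' - l)) ^ 2 := by ring
  rw [e] at k m
  rw [abs_le]
  constructor <;> linarith [h.1, h.2, k.1, k.2]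

end Pool.Agent.Y450.Lens
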