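import Pool.Agent.Y450.Stab.Exact
import Pool.Agent.Helper475.Miranda

/-! From a change of sign of the height of the last vertex to a square with its vertices on two
arcs near the two graphs. -/

set_option autoImplicit false
open Set Topology

namespace Pool.Agent.Y450.Lens

open Pool.Agent.Y450.Stab

/-- a piece of a path between two levels -/
theorem between {f : ℝ → ℝ} {p q u v : ℝ} (hpq : p ≤ q) (hf : ContinuousOn f (Icc p q))
    (hu : f p ≤ u) (hv : v ≤ f q) (huv : u ≤ v) :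
    ∃ s s', p ≤ s ∧ s ≤ s' ∧ s' ≤ q ∧ f s = u ∧ f s' = v ∧ ∀ t ∈ Icc s s', u ≤ f t ∧ f t ≤ v := by
  -- first time at level `v`
  have hA : (Icc p q ∩ f ⁻¹' {v}).Nonempty := by
    obtain ⟨t, ht, e⟩ := intermediate_value_Icc hpq hf (show v ∈ Icc (f p) (f q) from
      ⟨hu.trans huv, hv⟩)
    exact ⟨t, ht, e⟩
  have hAc : IsCompact (Icc p q ∩ f ⁻¹' {v}) := by
    have := hf.preimage_isClosed_of_isClosed isClosed_Icc (isClosed_singleton (x := v))
    exact isCompact_Icc.of_isClosed_subset this inter_subset_left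
  obtain ⟨s', hs', hmin⟩ := hAc.exists_isLeast hA
  have hfs' : f s' = v := hs'.2
  have hf' : ContinuousOn f (Icc p s') := hf.mono (Icc_subset_Icc_right hs'.1.2)
  have hB : (Icc p s' ∩ f ⁻¹' {u}).Nonempty := by
    obtain ⟨t, ht, e⟩ := intermediate_value_Icc hs'.1.1 hf' (show u ∈ Icc (f p) (f s') from
      ⟨hu, by rw [hfs']; exact huv⟩)
    exact ⟨t, ht, e⟩
  have hBc : IsCompact (Icc p s' ∩ f ⁻¹' {u}) := by
    have := hf'.preimage_isClosed_of_isClosed isClosed_Icc (isClosed_singleton (x := u))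
    exact isCompact_Icc.of_isClosed_subset this inter_subset_left
  obtain ⟨s, hs, hmax⟩ := hBc.exists_isGreatest hB
  have hfs : f s = u := hs.2
  refine ⟨s, s', hs.1.1, hs.1.2, hs'.1.2, hfs, hfs', fun t ht => ⟨?_, ?_⟩⟩
  · by_contra hcon
    push Not at hcon
    obtain ⟨r, hr, e⟩ := intermediate_value_Icc ht.2
      (hf'.mono (Icc_subset_Icc_left (hs.1.1.trans ht.1)))
      (show u ∈ Icc (f t) (f s') from ⟨hcon.le, by rw [hfs']; exact huv⟩)
    have := hmax ⟨⟨hs.1.1.trans (ht.1.trans hr.1), hr.2⟩, e⟩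
    have : r = t := le_antisymm (this.trans ht.1) hr.1
    rw [this] at e
    linarith
  · by_contra hcon
    push Not at hcon
    obtain ⟨r, hr, e⟩ := intermediate_value_Icc (hs.1.1.trans ht.1)
      (hf'.mono (Icc_subset_Icc_right ht.2))
      (show v ∈ Icc (f p) (f t) from ⟨hu.trans huv, hcon.le⟩)
    have := hmin ⟨⟨hr.1, hr.2.trans (ht.2.trans hs'.1.2)⟩, e⟩
    have : r = t := le_antisymm hr.2 (ht.2.trans this)
    rw [this] at e
    linarith

/-- the value in `[m - r, m + r]` nearest to `v` -/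
noncomputable def cl (m r v : ℝ) : ℝ := max (m - r) (min (m + r) v)

theorem cl_mem {m r : ℝ} (hr : 0 ≤ r) (v : ℝ) : m - r ≤ cl m r v ∧ cl m r v ≤ m + r :=
  ⟨le_max_left _ _, max_le (by linarith) (min_le_left _ _)⟩

theorem cl_eq {m r v : ℝ} (h : |v - m| ≤ r) : cl m r v = v := by
  have := abs_le.1 h
  unfold cl
  rw [min_eq_right (by linarith), max_eq_right (by linarith)]

theorem cl_cont {X : Type*} [TopologicalSpace X] {m v : X → ℝ} {S : Set X} (r : ℝ)
    (hm : ContinuousOn m S) (hv : ContinuousOn v S) :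
    ContinuousOn (fun x => cl (m x) r (v x)) S := by
  unfold cl
  exact (hm.sub continuousOn_const).sup ((hm.add continuousOn_const).inf hv)

variable {T B : ℝ → ℝ} {L : ℝ}

/-- The square: `h` is the height of the last vertex above the graph of `B`, `[u, v]` is an
interval on which `h` changes from `-σ η` to `σ η`; the exact squares over `[u, v]` have their
vertices over `[a + 2 κ, b - 2 κ]`. -/
theorem square {α β : ℝ → ℂ} (hα : ContinuousOn α (Icc 0 1)) (hβ : ContinuousOn β (Icc 0 1))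
    (hT : Lip L T) (hB : Lip L B) (L0 : 0 ≤ L) (L1 : L < 1) {a b e κ u v σ : ℝ} (he : 0 ≤ e)
    (hκ : (1 - L) * κ = 2 * e)
    (α0 : (α 0).re ≤ a) (α1 : b ≤ (α 1).re) (β0 : (β 0).re ≤ a) (β1 : b ≤ (β 1).re)
    (nα : ∀ s ∈ Icc (0:ℝ) 1, a ≤ (α s).re → (α s).re ≤ b → |(α s).im - T (α s).re| ≤ e)
    (nβ : ∀ s ∈ Icc (0:ℝ) 1, a ≤ (β s).re → (β s).re ≤ b → |(β s).im - B (β s).re| ≤ e)
    {dd ll : ℝ → ℝ} (cd : Continuous dd) (cll : Continuous ll)
    (hS : ∀ x, ESq T B x (dd x) (ll x)) (hσ : σ = 1 ∨ σ = -1) (huv : u ≤ v)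
    (hau : a + 2 * κ ≤ u) (hvb : v ≤ b - 2 * κ)
    (h2 : ∀ x ∈ Icc u v, a + 2 * κ ≤ x + dd x ∧ x + dd x ≤ b - 2 * κ)
    (h3 : ∀ x ∈ Icc u v, a + 2 * κ ≤ x + ll x ∧ x + ll x ≤ b - 2 * κ)
    (h4 : ∀ x ∈ Icc u v, a + 2 * κ ≤ x + dd x + ll x ∧ x + dd x + ll x ≤ b - 2 * κ)
    (hu : σ * (T u + dd u - ll u - B (u + dd u + ll u)) ≤ -(5 * κ))
    (hv : 5 * κ ≤ σ * (T v + dd v - ll v - B (v + dd v + ll v))) :
    ∃ s ∈ Icc (0:ℝ) 1, ∃ t ∈ Icc (0:ℝ) 1, ∃ s' ∈ Icc (0:ℝ) 1, ∃ t' ∈ Icc (0:ℝ) 1, ∃ w : ℂ,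
      (∃ x ∈ Icc u v, ll x - κ ≤ w.re) ∧
      α s' = α s + w ∧ β t = α s - Complex.I * w ∧ β t' = α s + w - Complex.I * w := by
  have q0 : 0 < 1 - L := by linarith
  have κ0 : 0 ≤ κ := by
    by_contra hcon
    push Not at hcon
    have := mul_neg_of_pos_of_neg q0 hcon
    linarith
  have Lκ : L * κ + 2 * e = κ := by linarith
  have hre : ContinuousOn (fun s => (α s).re) (Icc 0 1) :=
    Complex.continuous_re.comp_continuousOn hα
  obtain ⟨s0, s1, hs0, hs01, hs1, e0, e1, hbt⟩ := between (f := fun s => (α s).re) zero_le_one hre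
    (u := u) (v := v) (by linarith) (by linarith) huv
  set ps : ℝ → ℝ := fun t => s0 + t * (s1 - s0) with hps
  have ps_mem : ∀ t, 0 ≤ t → t ≤ 1 → ps t ∈ Icc s0 s1 := by
    intro t h0 h1
    have k1 := mul_nonneg h0 (by linarith : 0 ≤ s1 - s0)
    have k2 := mul_le_mul_of_nonneg_right h1 (by linarith : 0 ≤ s1 - s0)
    simp only [hps]
    constructor <;> linarith
  have ps01 : ∀ t, 0 ≤ t → t ≤ 1 → ps t ∈ Icc (0:ℝ) 1 := fun t h0 h1 =>
    ⟨hs0.trans (ps_mem t h0 h1).1, (ps_mem t h0 h1).2.trans hs1⟩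
  set Q : Set (Fin 4 → ℝ) := {z | ∀ i, 0 ≤ z i ∧ z i ≤ 1} with hQ
  -- coordinates
  set x1 : (Fin 4 → ℝ) → ℝ := fun z => (α (ps (z 0))).re with hx1
  set y1 : (Fin 4 → ℝ) → ℝ := fun z => (α (ps (z 0))).im with hy1
  set x2 : (Fin 4 → ℝ) → ℝ := fun z => (β (z 1)).re with hx2
  set y2 : (Fin 4 → ℝ) → ℝ := fun z => (β (z 1)).im with hy2
  set x3 : (Fin 4 → ℝ) → ℝ := fun z => (α (z 2)).re with hx3
  set y3 : (Fin 4 → ℝ) → ℝ := fun z => (α (z 2)).im with hy3
  set x4 : (Fin 4 → ℝ) → ℝ := fun z => (β (z 3)).re with hx4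
  set y4 : (Fin 4 → ℝ) → ℝ := fun z => (β (z 3)).im with hy4
  have cα : ∀ {g : (Fin 4 → ℝ) → ℝ}, ContinuousOn g Q → MapsTo g Q (Icc 0 1) →
      ContinuousOn (fun z => α (g z)) Q := fun hg hm => hα.comp hg hm
  have cβ : ∀ {g : (Fin 4 → ℝ) → ℝ}, ContinuousOn g Q → MapsTo g Q (Icc 0 1) →
      ContinuousOn (fun z => β (g z)) Q := fun hg hm => hβ.comp hg hm
  have c0 : ContinuousOn (fun z : Fin 4 → ℝ => α (ps (z 0))) Q := cα
    (Continuous.continuousOn (by simp only [hps]; fun_prop)) fun z hz => ps01 _ (hz 0).1 (hz 0).2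
  have c1 : ContinuousOn (fun z : Fin 4 → ℝ => β (z 1)) Q := cβ
    (Continuous.continuousOn (by fun_prop)) fun z hz => ⟨(hz 1).1, (hz 1).2⟩
  have c2 : ContinuousOn (fun z : Fin 4 → ℝ => α (z 2)) Q := cα
    (Continuous.continuousOn (by fun_prop)) fun z hz => ⟨(hz 2).1, (hz 2).2⟩
  have c3 : ContinuousOn (fun z : Fin 4 → ℝ => β (z 3)) Q := cβ
    (Continuous.continuousOn (by fun_prop)) fun z hz => ⟨(hz 3).1, (hz 3).2⟩
  have cx1 : ContinuousOn x1 Q := Complex.continuous_re.comp_continuousOn c0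
  have cy1 : ContinuousOn y1 Q := Complex.continuous_im.comp_continuousOn c0
  have cx2 : ContinuousOn x2 Q := Complex.continuous_re.comp_continuousOn c1
  have cy2 : ContinuousOn y2 Q := Complex.continuous_im.comp_continuousOn c1
  have cx3 : ContinuousOn x3 Q := Complex.continuous_re.comp_continuousOn c2
  have cy3 : ContinuousOn y3 Q := Complex.continuous_im.comp_continuousOn c2
  have cx4 : ContinuousOn x4 Q := Complex.continuous_re.comp_continuousOn c3
  have cy4 : ContinuousOn y4 Q := Complex.continuous_im.comp_continuousOn c3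
  set hh : ℝ → ℝ := fun x => T x + dd x - ll x - B (x + dd x + ll x) with hhh
  have chh : Continuous hh := by
    have := hT.cont
    have := hB.cont
    simp only [hhh]
    fun_prop
  set F : (Fin 4 → ℝ) → (Fin 4 → ℝ) := fun z =>
    ![σ * cl (hh (x1 z)) (5 * κ) (y2 z + y3 z - y1 z - y4 z),
      x2 z - x1 z - cl (dd (x1 z)) κ (y3 z - y1 z),
      x3 z - x1 z - cl (ll (x1 z)) κ (y1 z - y2 z),
      x4 z - cl (x1 z + dd (x1 z) + ll (x1 z)) (2 * κ) (x2 z + x3 z - x1 z)] with hF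
  have cF : ContinuousOn F Q := by
    have f0 : ContinuousOn (fun z => σ * cl (hh (x1 z)) (5 * κ) (y2 z + y3 z - y1 z - y4 z)) Q :=
      continuousOn_const.mul (cl_cont _ (chh.comp_continuousOn cx1)
        (((cy2.add cy3).sub cy1).sub cy4))
    have f1 : ContinuousOn (fun z => x2 z - x1 z - cl (dd (x1 z)) κ (y3 z - y1 z)) Q :=
      (cx2.sub cx1).sub (cl_cont _ (cd.comp_continuousOn cx1) (cy3.sub cy1))
    have f2 : ContinuousOn (fun z => x3 z - x1 z - cl (ll (x1 z)) κ (y1 z - y2 z)) Q :=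
      (cx3.sub cx1).sub (cl_cont _ (cll.comp_continuousOn cx1) (cy1.sub cy2))
    have f3 : ContinuousOn (fun z => x4 z - cl (x1 z + dd (x1 z) + ll (x1 z)) (2 * κ)
        (x2 z + x3 z - x1 z)) Q :=
      cx4.sub (cl_cont _ ((cx1.add (cd.comp_continuousOn cx1)).add (cll.comp_continuousOn cx1))
        ((cx2.add cx3).sub cx1))
    rw [continuousOn_pi]
    intro i
    fin_cases i
    · exact f0
    · exact f1
    · exact f2
    · exact f3
  have x1m : ∀ z ∈ Q, x1 z ∈ Icc u v := fun z hz => hbt _ (ps_mem _ (hz 0).1 (hz 0).2)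
  obtain ⟨z, hz, hFz⟩ := Pool.Agent.Helper475.Miranda.poincare_miranda 4 F cF
    (fun z hz i hi => by
      have hx := x1m z hz
      fin_cases i
      · have e : x1 z = u := by
          have : z 0 = 0 := hi
          simp only [hx1, hps, this, zero_mul, add_zero]
          exact e0
        show σ * cl (hh (x1 z)) (5 * κ) (y2 z + y3 z - y1 z - y4 z) ≤ 0
        rw [e]
        obtain ⟨k1, k2⟩ := cl_mem (m := hh u) (by linarith : 0 ≤ 5 * κ)
          (y2 z + y3 z - y1 z - y4 z)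
        have hu' : σ * hh u ≤ -(5 * κ) := hu
        rcases hσ with h | h
        · rw [h] at hu' ⊢; linarith
        · rw [h] at hu' ⊢; linarith
      · have e : x2 z ≤ a := by
          have : z 1 = 0 := hi
          simp only [hx2, this]
          exact β0
        show x2 z - x1 z - cl (dd (x1 z)) κ (y3 z - y1 z) ≤ 0
        have k := (cl_mem (m := dd (x1 z)) κ0 (y3 z - y1 z)).1
        have := (h2 _ hx).1
        linarith
      · have e : x3 z ≤ a := by
          have : z 2 = 0 := hi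
          simp only [hx3, this]
          exact α0
        show x3 z - x1 z - cl (ll (x1 z)) κ (y1 z - y2 z) ≤ 0
        have k := (cl_mem (m := ll (x1 z)) κ0 (y1 z - y2 z)).1
        have := (h3 _ hx).1
        linarith
      · have e : x4 z ≤ a := by
          have : z 3 = 0 := hi
          simp only [hx4, this]
          exact β0
        show x4 z - cl (x1 z + dd (x1 z) + ll (x1 z)) (2 * κ) (x2 z + x3 z - x1 z) ≤ 0
        have k := (cl_mem (m := x1 z + dd (x1 z) + ll (x1 z)) (by linarith : 0 ≤ 2 * κ)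
          (x2 z + x3 z - x1 z)).1
        have := (h4 _ hx).1
        linarith)
    (fun z hz i hi => by
      have hx := x1m z hz
      fin_cases i
      · have e : x1 z = v := by
          have : z 0 = 1 := hi
          simp only [hx1, hps, this, one_mul, add_sub_cancel]
          exact e1
        show 0 ≤ σ * cl (hh (x1 z)) (5 * κ) (y2 z + y3 z - y1 z - y4 z)
        rw [e]
        obtain ⟨k1, k2⟩ := cl_mem (m := hh v) (by linarith : 0 ≤ 5 * κ)
          (y2 z + y3 z - y1 z - y4 z)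
        have hv' : 5 * κ ≤ σ * hh v := hv
        rcases hσ with h | h
        · rw [h] at hv' ⊢; linarith
        · rw [h] at hv' ⊢; linarith
      · have e : b ≤ x2 z := by
          have : z 1 = 1 := hi
          simp only [hx2, this]
          exact β1
        show 0 ≤ x2 z - x1 z - cl (dd (x1 z)) κ (y3 z - y1 z)
        have k := (cl_mem (m := dd (x1 z)) κ0 (y3 z - y1 z)).2
        have := (h2 _ hx).2
        linarith
      · have e : b ≤ x3 z := by
          have : z 2 = 1 := hi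
          simp only [hx3, this]
          exact α1
        show 0 ≤ x3 z - x1 z - cl (ll (x1 z)) κ (y1 z - y2 z)
        have k := (cl_mem (m := ll (x1 z)) κ0 (y1 z - y2 z)).2
        have := (h3 _ hx).2
        linarith
      · have e : b ≤ x4 z := by
          have : z 3 = 1 := hi
          simp only [hx4, this]
          exact β1
        show 0 ≤ x4 z - cl (x1 z + dd (x1 z) + ll (x1 z)) (2 * κ) (x2 z + x3 z - x1 z)
        have k := (cl_mem (m := x1 z + dd (x1 z) + ll (x1 z)) (by linarith : 0 ≤ 2 * κ)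
          (x2 z + x3 z - x1 z)).2
        have := (h4 _ hx).2
        linarith)
  have G0 : σ * cl (hh (x1 z)) (5 * κ) (y2 z + y3 z - y1 z - y4 z) = 0 := congrFun hFz 0
  have G1 : x2 z - x1 z - cl (dd (x1 z)) κ (y3 z - y1 z) = 0 := congrFun hFz 1
  have G2 : x3 z - x1 z - cl (ll (x1 z)) κ (y1 z - y2 z) = 0 := congrFun hFz 2
  have G3 : x4 z - cl (x1 z + dd (x1 z) + ll (x1 z)) (2 * κ) (x2 z + x3 z - x1 z) = 0 :=
    congrFun hFz 3
  have hx := x1m z hz
  have m2 := cl_mem (m := dd (x1 z)) κ0 (y3 z - y1 z)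
  have m3 := cl_mem (m := ll (x1 z)) κ0 (y1 z - y2 z)
  have m4 := cl_mem (m := x1 z + dd (x1 z) + ll (x1 z)) (by linarith : 0 ≤ 2 * κ)
    (x2 z + x3 z - x1 z)
  have H2 := h2 _ hx
  have H3 := h3 _ hx
  have H4 := h4 _ hx
  have S := hS (x1 z)
  have n1 : |y1 z - T (x1 z)| ≤ e := nα _ (ps01 _ (hz 0).1 (hz 0).2)
    (show a ≤ x1 z by linarith [hx.1]) (show x1 z ≤ b by linarith [hx.2])
  have n2 : |y2 z - B (x2 z)| ≤ e := nβ _ (hz 1) (show a ≤ x2 z by linarith [m2.1])
    (show x2 z ≤ b by linarith [m2.2])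
  have n3 : |y3 z - T (x3 z)| ≤ e := nα _ (hz 2) (show a ≤ x3 z by linarith [m3.1])
    (show x3 z ≤ b by linarith [m3.2])
  have n4 : |y4 z - B (x4 z)| ≤ e := nβ _ (hz 3) (show a ≤ x4 z by linarith [m4.1])
    (show x4 z ≤ b by linarith [m4.2])
  -- the clamps are inactive
  have D2 : |x2 z - x1 z - dd (x1 z)| ≤ κ := by
    rw [abs_le]; constructor <;> linarith [m2.1, m2.2]
  have D3 : |x3 z - x1 z - ll (x1 z)| ≤ κ := by
    rw [abs_le]; constructor <;> linarith [m3.1, m3.2]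
  have D4 : |x4 z - (x1 z + dd (x1 z) + ll (x1 z))| ≤ 2 * κ := by
    rw [abs_le]; constructor <;> linarith [m4.1, m4.2]
  have B2 : |B (x2 z) - B (x1 z + dd (x1 z))| ≤ L * κ := by
    refine (hB _ _).trans (mul_le_mul_of_nonneg_left ?_ L0)
    rw [← sub_sub]; exact D2
  have T3 : |T (x3 z) - T (x1 z + ll (x1 z))| ≤ L * κ := by
    refine (hT _ _).trans (mul_le_mul_of_nonneg_left ?_ L0)
    rw [← sub_sub]; exact D3
  have B4 : |B (x4 z) - B (x1 z + dd (x1 z) + ll (x1 z))| ≤ L * (2 * κ) :=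
    (hB _ _).trans (mul_le_mul_of_nonneg_left D4 L0)
  rw [S.h2] at B2
  rw [S.h3] at T3
  have hLκ : L * κ ≤ κ := by linarith
  rw [abs_le] at n1 n2 n3 n4 B2 T3 B4 D2 D3 D4
  have E2 : x2 z - x1 z = y3 z - y1 z := by
    rw [cl_eq (by rw [abs_le]; constructor <;> linarith [n1.1, n1.2, n3.1, n3.2, T3.1, T3.2])]
      at G1
    linarith
  have E3 : x3 z - x1 z = y1 z - y2 z := by
    rw [cl_eq (by rw [abs_le]; constructor <;> linarith [n1.1, n1.2, n2.1, n2.2, B2.1, B2.2])]
      at G2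
    linarith
  have E4 : x4 z = x2 z + x3 z - x1 z := by
    rw [cl_eq (by rw [abs_le]; constructor <;> linarith [D2.1, D2.2, D3.1, D3.2])] at G3
    linarith
  have E5 : y2 z + y3 z - y1 z - y4 z = 0 := by
    have : |y2 z + y3 z - y1 z - y4 z - hh (x1 z)| ≤ 5 * κ := by
      simp only [hhh]
      rw [abs_le]
      constructor <;> linarith [n1.1, n1.2, n4.1, n4.2, B4.1, B4.2, D2.1, D2.2, D3.1, D3.2]
    rw [cl_eq this] at G0
    rcases hσ with h | h
    · rw [h] at G0; linarith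
    · rw [h] at G0; linarith
  refine ⟨ps (z 0), ps01 _ (hz 0).1 (hz 0).2, z 1, hz 1, z 2, hz 2, z 3, hz 3,
    ⟨x3 z - x1 z, y3 z - y1 z⟩, ⟨x1 z, hx, by simp only; linarith [D3.1]⟩, ?_, ?_, ?_⟩
  · apply Complex.ext
    · simp only [Complex.add_re, hx3, hx1]; ring
    · simp only [Complex.add_im, hy3, hy1]; ring
  · apply Complex.ext
    · simp only [Complex.sub_re, Complex.mul_re, Complex.I_re, Complex.I_im]
      show x2 z = x1 z - (0 * (x3 z - x1 z) - 1 * (y3 z - y1 z))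
      linarith
    · simp only [Complex.sub_im, Complex.mul_im, Complex.I_re, Complex.I_im]
      show y2 z = y1 z - (0 * (y3 z - y1 z) + 1 * (x3 z - x1 z))
      linarith
  · apply Complex.ext
    · simp only [Complex.add_re, Complex.sub_re, Complex.mul_re, Complex.I_re, Complex.I_im]
      show x4 z = x1 z + (x3 z - x1 z) - (0 * (x3 z - x1 z) - 1 * (y3 z - y1 z))
      linarith
    · simp only [Complex.add_im, Complex.sub_im, Complex.mul_im, Complex.I_re, Complex.I_im]
      show y4 z = y1 z + (y3 z - y1 z) - (0 * (y3 z - y1 z) + 1 * (x3 z - x1 z))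
      linarith

end Pool.Agent.Y450.Lens
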