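import Pool.Agent.Y450.Lens.Area
import Pool.Agent.Y450.Lens.Top

/-! A bulge between two arcs near two graphs contains a large inscribed square. -/

set_option autoImplicit false
open Set Topology

namespace Pool.Agent.Y450.Lens

open Pool.Agent.Y450.Stab

theorem last {f : ℝ → ℝ} {p q c : ℝ} (hpq : p ≤ q) (hf : Continuous f) (hp : f p ≤ c)
    (hq : c ≤ f q) : ∃ s ∈ Icc p q, f s = c ∧ ∀ t ∈ Icc s q, c ≤ f t := by
  have hA : (Icc p q ∩ f ⁻¹' {c}).Nonempty := by
    obtain ⟨t, ht, e⟩ := intermediate_value_Icc hpq hf.continuousOn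
      (show c ∈ Icc (f p) (f q) from ⟨hp, hq⟩)
    exact ⟨t, ht, e⟩
  have hAc : IsCompact (Icc p q ∩ f ⁻¹' {c}) :=
    isCompact_Icc.inter_right (isClosed_singleton.preimage hf)
  obtain ⟨s, hs, hmax⟩ := hAc.exists_isGreatest hA
  refine ⟨s, hs.1, hs.2, fun t ht => ?_⟩
  by_contra hcon
  push Not at hcon
  obtain ⟨r, hr, e⟩ := intermediate_value_Icc ht.2 hf.continuousOn
    (show c ∈ Icc (f t) (f q) from ⟨hcon.le, hq⟩)
  have := hmax ⟨⟨hs.1.1.trans (ht.1.trans hr.1), hr.2⟩, e⟩
  have : r = t := le_antisymm (this.trans ht.1) hr.1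
  rw [this] at e
  linarith

theorem first {f : ℝ → ℝ} {p q c : ℝ} (hpq : p ≤ q) (hf : Continuous f) (hp : c ≤ f p)
    (hq : f q ≤ c) : ∃ s ∈ Icc p q, f s = c ∧ ∀ t ∈ Icc p s, c ≤ f t := by
  obtain ⟨s, hs, e, h⟩ := last (f := fun x => f (-x)) (p := -q) (q := -p) (c := c)
    (by linarith) (by fun_prop) (by simpa using hq) (by simpa using hp)
  refine ⟨-s, ⟨by linarith [hs.2], by linarith [hs.1]⟩, e, fun t ht => ?_⟩
  have := h (-t) ⟨by linarith [ht.2], by linarith [ht.1]⟩
  simpa using this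

variable {T B : ℝ → ℝ} {L : ℝ}

theorem cont_of_steps {f : ℝ → ℝ} {K : ℝ} (h : ∀ x r, 0 ≤ r → |f (x + r) - f x| ≤ K * r) :
    Continuous f := by
  have hK : ∀ x y, |f x - f y| ≤ |K| * |x - y| := by
    have key : ∀ x y, x ≤ y → |f x - f y| ≤ |K| * |x - y| := by
      intro x y hxy
      have := h x (y - x) (by linarith)
      rw [add_sub_cancel] at this
      rw [abs_sub_comm, abs_sub_comm x y, abs_of_nonneg (by linarith : 0 ≤ y - x)]
      exact this.trans (mul_le_mul_of_nonneg_right (le_abs_self K) (by linarith))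
    intro x y
    rcases le_total x y with hxy | hxy
    · exact key x y hxy
    · have := key y x hxy
      rw [abs_sub_comm, abs_sub_comm y x] at this
      exact this
  exact Lip.cont (L := |K|) hK

theorem main_fun {α β : ℝ → ℂ} (hα : ContinuousOn α (Icc 0 1)) (hβ : ContinuousOn β (Icc 0 1))
    (hT : Lip L T) (hB : Lip L B) (L0 : 0 ≤ L) (L1 : L < 1) (hBT : ∀ x, B x ≤ T x)
    {a b e G M x0 : ℝ} (he : 0 < e) (hM : 0 < M) (hx0 : x0 ∈ Icc a b) (hg : M ≤ T x0 - B x0)
    (hout : ∀ x, x ≤ a ∨ b ≤ x → T x - B x ≤ G)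
    (hG : 100 * G ≤ (1 - L) ^ 2 * M) (he1 : 3000 * e * (b - a) ≤ (1 - L) ^ 2 * M ^ 2)
    (he2 : 3000 * e ≤ (1 - L) ^ 3 * M)
    (α0 : (α 0).re ≤ a) (α1 : b ≤ (α 1).re) (β0 : (β 0).re ≤ a) (β1 : b ≤ (β 1).re)
    (nα : ∀ s ∈ Icc (0:ℝ) 1, a ≤ (α s).re → (α s).re ≤ b → |(α s).im - T (α s).re| ≤ e)
    (nβ : ∀ s ∈ Icc (0:ℝ) 1, a ≤ (β s).re → (β s).re ≤ b → |(β s).im - B (β s).re| ≤ e) :
    ∃ s ∈ Icc (0:ℝ) 1, ∃ t ∈ Icc (0:ℝ) 1, ∃ s' ∈ Icc (0:ℝ) 1, ∃ t' ∈ Icc (0:ℝ) 1, ∃ w : ℂ,
      (1 - L) * M / 64 ≤ w.re ∧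
      α s' = α s + w ∧ β t = α s - Complex.I * w ∧ β t' = α s + w - Complex.I * w := by
  choose dd ll hS using fun x => ESq.ex hT hB L0 L1 (hBT x)
  have q0 : 0 < 1 - L := by linarith
  have q1 : 1 - L ≤ 1 := by linarith
  have hst : ∀ x r, 0 ≤ r → (1 - L) * (|dd (x + r) - dd x| + |ll (x + r) - ll x|) ≤ 4 * r :=
    fun x r hr => (hS x).steps hT hB L0 L1 (hS (x + r)) hr
  have cd : Continuous dd := cont_of_steps (K := 4 / (1 - L)) fun x r hr => by
    rw [div_mul_eq_mul_div, le_div_iff₀ q0]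
    have := hst x r hr
    have := mul_nonneg q0.le (abs_nonneg (ll (x + r) - ll x))
    linarith
  have cll : Continuous ll := cont_of_steps (K := 4 / (1 - L)) fun x r hr => by
    rw [div_mul_eq_mul_div, le_div_iff₀ q0]
    have := hst x r hr
    have := mul_nonneg q0.le (abs_nonneg (dd (x + r) - dd x))
    linarith
  have hgap : ∀ x y, T x - B x - 2 * |x - y| ≤ T y - B y := by
    intro x y
    have h1 := (abs_le.1 (hT x y)).2
    have h2 := (abs_le.1 (hB x y)).1
    have h3 := mul_le_mul_of_nonneg_right L1.le (abs_nonneg (x - y))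
    linarith
  set q := 1 - L with hq
  have qM : 0 < q * M := mul_pos q0 hM
  have q2M : q ^ 2 * M ≤ q * M := by
    have := mul_le_mul_of_nonneg_right q1 qM.le
    linarith [show q ^ 2 * M = q * (q * M) by ring]
  have qM1 : q * M ≤ M := by
    have := mul_le_mul_of_nonneg_right q1 hM.le
    linarith
  have ga := hgap x0 a
  have gb := hgap x0 b
  rw [abs_of_nonneg (by linarith [hx0.1] : 0 ≤ x0 - a)] at ga
  rw [abs_of_nonpos (by linarith [hx0.2] : x0 - b ≤ 0)] at gb
  have oa := hout a (Or.inl le_rfl)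
  have ob := hout b (Or.inr le_rfl)
  have hMW : 50 * M ≤ 51 * (b - a) := by linarith
  -- the parameter κ
  obtain ⟨κ, hκ⟩ : ∃ κ, (1 - L) * κ = 2 * e := ⟨2 * e / (1 - L), by rw [← hq]; field_simp⟩
  rw [← hq] at hκ
  have κ0 : 0 < κ := by
    by_contra hcon
    push Not at hcon
    have := mul_nonneg q0.le (by linarith : 0 ≤ -κ)
    linarith
  have κM : 3000 * κ ≤ 2 * (q ^ 2 * M) := by
    refine le_of_mul_le_mul_left (a := q) ?_ q0
    have e1 : q * (3000 * κ) = 2 * (3000 * e) := by linear_combination 3000 * hκ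
    have e2 : q * (2 * (q ^ 2 * M)) = 2 * (q ^ 3 * M) := by ring
    rw [e1, e2]
    linarith
  have hηM : 300 * (5 * κ) * (b - a) ≤ (1 - L) * M ^ 2 := by
    rw [← hq]
    refine le_of_mul_le_mul_left (a := q) ?_ q0
    have e1 : q * (300 * (5 * κ) * (b - a)) = 3000 * e * (b - a) := by
      linear_combination (1500 * (b - a)) * hκ
    rw [e1]
    linarith [show q * (q * M ^ 2) = q ^ 2 * M ^ 2 by ring]
  -- the ends of the bulge
  have lsm : ∀ x, T x - B x ≤ G → ll x ≤ q * M / 60 := by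
    intro x hx
    have h1 := (hS x).l_le hT hB L0
    have l0 := (hS x).l0
    have h2 : q * ll x ≤ (1 - L ^ 2) * ll x := by
      have := mul_nonneg (mul_nonneg L0 q0.le) l0
      have e1 : (1 - L ^ 2) * ll x = q * ll x + L * q * ll x := by rw [hq]; ring
      linarith
    refine le_of_mul_le_mul_left (a := q) ?_ q0
    have e2 : q * (q * M / 60) = q ^ 2 * M / 60 := by ring
    rw [e2]
    have : 0 < q ^ 2 * M := by positivity
    linarith
  have lx0 : q * M / 60 ≤ ll x0 := by
    have := gap_x hT hB L0 L1 (hS x0)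
    linarith
  obtain ⟨x1, hx1, l1, hl1⟩ := last hx0.1 cll (lsm a oa) lx0
  obtain ⟨x2, hx2, l2, hl2⟩ := first hx0.2 cll lx0 (lsm b ob)
  have hlow : ∀ x ∈ Icc x1 x2, q * M / 60 ≤ ll x := by
    intro x hx
    rcases le_total x x0 with h | h
    · exact hl1 x ⟨hx.1, h⟩
    · exact hl2 x ⟨h, hx.2⟩
  set hh : ℝ → ℝ := fun x => YY T dd ll x - B (XX dd ll x) with hhh
  have chh : Continuous hh := by
    have := hT.cont
    have := hB.cont
    simp only [hhh, YY, XX]
    fun_prop
  have sgn : ∀ σ : ℝ, σ = 1 ∨ σ = -1 → ∃ x ∈ Icc x1 x2, σ * hh x < -(5 * κ) := by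
    intro σ hσ
    by_contra hcon
    push Not at hcon
    exact area_sign hσ hT hB L0 L1 hS hx1.2 hx2.1 (W := b - a) (M := M) (η := 5 * κ)
      (by linarith [hx1.1, hx2.2]) hM hMW hg (by rw [l1]; linarith) (by rw [l2]; linarith)
      (by linarith) hηM hcon
  obtain ⟨xb, hxb, hb⟩ := sgn 1 (Or.inl rfl)
  obtain ⟨xa, hxa, ha⟩ := sgn (-1) (Or.inr rfl)
  -- an interval with a change of sign
  obtain ⟨σ, u, v, hσ, hu1, huv, hv2, hu, hv, hbd⟩ : ∃ σ u v : ℝ, (σ = 1 ∨ σ = -1) ∧ x1 ≤ u ∧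
      u ≤ v ∧ v ≤ x2 ∧ σ * hh u = -(5 * κ) ∧ σ * hh v = 5 * κ ∧
      ∀ x ∈ Icc u v, |hh x| ≤ 5 * κ := by
    rcases le_total xb xa with h | h
    · obtain ⟨u, v, h1, h2, h3, h4, h5, h6⟩ := between h chh.continuousOn (u := -(5 * κ))
        (v := 5 * κ) (by linarith) (by linarith) (by linarith)
      exact ⟨1, u, v, Or.inl rfl, hxb.1.trans h1, h2, h3.trans hxa.2, by rw [h4]; ring,
        by rw [h5]; ring, fun x hx => abs_le.2 (h6 x hx)⟩
    · obtain ⟨u, v, h1, h2, h3, h4, h5, h6⟩ := between (f := fun x => -hh x) h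
        (chh.neg).continuousOn (u := -(5 * κ)) (v := 5 * κ) (by linarith) (by linarith)
        (by linarith)
      exact ⟨-1, u, v, Or.inr rfl, hxa.1.trans h1, h2, h3.trans hxb.2, by rw [← h4]; ring,
        by rw [← h5]; ring, fun x hx => by
          have := h6 x hx
          rw [abs_le]; constructor <;> linarith [this.1, this.2]⟩
  -- location
  have loc : ∀ y, G + 4 * κ ≤ T y - B y → a + 2 * κ ≤ y ∧ y ≤ b - 2 * κ := by
    intro y hy
    constructor
    · by_contra hcon
      push Not at hcon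
      rcases le_total y a with h | h
      · have := hout y (Or.inl h)
        linarith
      · have := hgap y a
        rw [abs_of_nonneg (by linarith : 0 ≤ y - a)] at this
        linarith
    · by_contra hcon
      push Not at hcon
      rcases le_total b y with h | h
      · have := hout y (Or.inr h)
        linarith
      · have := hgap y b
        rw [abs_of_nonpos (by linarith : y - b ≤ 0)] at this
        linarith
  have thick : ∀ x ∈ Icc u v, G + 9 * κ ≤ (1 - L ^ 2) * ll x := by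
    intro x hx
    have h1 := hlow x ⟨hu1.trans hx.1, hx.2.trans hv2⟩
    have l0 := (hS x).l0
    have h2 : q * ll x ≤ (1 - L ^ 2) * ll x := by
      have := mul_nonneg (mul_nonneg L0 q0.le) l0
      have e1 : (1 - L ^ 2) * ll x = q * ll x + L * q * ll x := by rw [hq]; ring
      linarith
    have h3 := mul_le_mul_of_nonneg_left h1 q0.le
    have e2 : q * (q * M / 60) = q ^ 2 * M / 60 := by ring
    have : 0 < q ^ 2 * M := by positivity
    linarith
  have Ldd : ∀ x, L * |dd x| ≤ L ^ 2 * ll x := by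
    intro x
    have := mul_le_mul_of_nonneg_left ((hS x).d_le hT) L0
    linarith [show L * (L * ll x) = L ^ 2 * ll x by ring]
  have hX : ∀ x, B (x + dd x + ll x) = T x + dd x - ll x - hh x := by
    intro x
    simp only [hhh, YY, XX]
    ring
  obtain ⟨s, hs, t, ht, s', hs', t', ht', w, ⟨x, hx, hw⟩, k1, k2, k3⟩ :=
    square hα hβ hT hB L0 L1 (e := e) (κ := κ) he.le (by rw [← hq]; exact hκ) α0 α1 β0 β1 nα nβ
      cd cll hS hσ huv
      (loc u (by
        have h1 := thick u ⟨le_rfl, huv⟩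
        have h2 := (hS u).l_le hT hB L0
        linarith)).1
      (loc v (by
        have h1 := thick v ⟨huv, le_rfl⟩
        have h2 := (hS v).l_le hT hB L0
        linarith)).2
      (fun x hx => loc _ (by
        have h1 := thick x hx
        have h2 := (abs_le.1 (hT (x + dd x) x)).1
        rw [show x + dd x - x = dd x by ring] at h2
        have h3 := Ldd x
        rw [(hS x).h2]
        linarith))
      (fun x hx => loc _ (by
        have h1 := thick x hx
        have h2 := (abs_le.1 (hB (x + dd x + ll x) (x + ll x))).1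
        rw [show x + dd x + ll x - (x + ll x) = dd x by ring, hX x] at h2
        have h3 := Ldd x
        have h4 := (abs_le.1 (hbd x hx)).1
        rw [(hS x).h3]
        linarith))
      (fun x hx => loc _ (by
        have h1 := thick x hx
        have h2 := (abs_le.1 (hT (x + dd x + ll x) (x + ll x))).1
        rw [show x + dd x + ll x - (x + ll x) = dd x by ring, (hS x).h3] at h2
        have h3 := Ldd x
        have h4 := (abs_le.1 (hbd x hx)).1
        rw [hX x]
        linarith))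
      hu.le hv.ge
  refine ⟨s, hs, t, ht, s', hs', t', ht', w, ?_, k1, k2, k3⟩
  have h1 := hlow x ⟨hu1.trans hx.1, hx.2.trans hv2⟩
  linarith

end Pool.Agent.Y450.Lens
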